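import Pool.Agent.K3h81.RL.Stm

/-!
# Removing finitely many factors from an infinite product
-/

set_option autoImplicit false

open Filter Topology

namespace Pool.Agent.K3h51.RL

open Pool.Agent.K3h81.RL

theorem t_EUL : S_EUL := by
  intro A _ S P hSP f L hP hL
  have h1 : HasProd (Set.mulIndicator {v : A | v ∉ S} (fun v => (f v)⁻¹)) L :=
    hasProd_subtype_iff_mulIndicator.1 hL
  have h2 : HasProd (fun v : A => if v ∈ P then f v else 1)
      (∏ v ∈ P, (if v ∈ P then f v else 1)) :=
    hasProd_prod_of_ne_finset_one (fun v hv => if_neg hv)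
  have h3 := h2.mul h1
  have h4 : (∏ v ∈ P, (if v ∈ P then f v else 1)) = ∏ v ∈ P, f v :=
    Finset.prod_congr rfl (fun v hv => if_pos hv)
  rw [h4] at h3
  have h5 : (fun v : A => (if v ∈ P then f v else 1) *
      Set.mulIndicator {v : A | v ∉ S} (fun v => (f v)⁻¹) v)
      = Set.mulIndicator {v : A | v ∉ S ∪ P} (fun v => (f v)⁻¹) := by
    funext v
    by_cases hvP : v ∈ P
    · have hvS : v ∉ S := fun h => (Finset.disjoint_left.1 hSP h hvP)
      have h6 : v ∈ {v : A | v ∉ S} := hvS
      have h7 : v ∉ {v : A | v ∉ S ∪ P} := by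
        intro h
        exact h (Finset.mem_union_right _ hvP)
      rw [if_pos hvP, Set.mulIndicator_of_mem h6, Set.mulIndicator_of_notMem h7,
        mul_inv_cancel₀ (hP v hvP)]
    · rw [if_neg hvP, one_mul]
      by_cases hvS : v ∈ S
      · have h6 : v ∉ {v : A | v ∉ S} := fun h => h hvS
        have h7 : v ∉ {v : A | v ∉ S ∪ P} := fun h => h (Finset.mem_union_left _ hvS)
        rw [Set.mulIndicator_of_notMem h6, Set.mulIndicator_of_notMem h7]
      · have h6 : v ∈ {v : A | v ∉ S} := hvS
        have h7 : v ∈ {v : A | v ∉ S ∪ P} := by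
          intro h
          rcases Finset.mem_union.1 h with h | h
          · exact hvS h
          · exact hvP h
        rw [Set.mulIndicator_of_mem h6, Set.mulIndicator_of_mem h7]
  rw [h5] at h3
  exact hasProd_subtype_iff_mulIndicator.2 h3

end Pool.Agent.K3h51.RL
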